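import Mathlib

/-! # Ball arithmetic with integer centres and radii

A ball `b = ⟨c, r⟩` at scale `D` stands for the real numbers `x` with `|x * D - c| ≤ r`.
All operations are exact on the integers `c`, `r`; they reduce quickly in the kernel. -/

set_option autoImplicit false

namespace Pool.Agent.Helper1.CX

/-- a ball: centre and radius -/
structure Ball where
  c : ℤ
  r : ℕ
deriving DecidableEq, Repr

namespace Ball

/-- `x` lies in the ball `b` at scale `D` -/
def Mem (D : ℝ) (x : ℝ) (b : Ball) : Prop := |x * D - b.c| ≤ b.r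

/-- sum (same scale) -/
def add (a b : Ball) : Ball := ⟨a.c + b.c, a.r + b.r⟩

/-- difference (same scale) -/
def sub (a b : Ball) : Ball := ⟨a.c - b.c, a.r + b.r⟩

/-- opposite -/
def neg (a : Ball) : Ball := ⟨-a.c, a.r⟩

/-- product (the scales are multiplied) -/
def mul (a b : Ball) : Ball := ⟨a.c * b.c, a.c.natAbs * b.r + (b.c.natAbs + b.r) * a.r⟩

/-- product with an exact integer (same scale) -/
def smul (k : ℤ) (a : Ball) : Ball := ⟨k * a.c, k.natAbs * a.r⟩

/-- exact integer -/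
def ofInt (k : ℤ) : Ball := ⟨k, 0⟩

/-- rounding: from scale `D * s` to scale `D` -/
def round (s : ℕ) (a : Ball) : Ball := ⟨a.c / s, a.r / s + 2⟩

/-- the ball lies to the right of `0` -/
def pos (a : Ball) : Bool := decide ((a.r : ℤ) < a.c)

/-- the ball lies to the left of `0` -/
def isNeg (a : Ball) : Bool := decide (a.c < -(a.r : ℤ))

variable {D E x y : ℝ} {a b : Ball}

theorem Mem.add (ha : Mem D x a) (hb : Mem D y b) : Mem D (x + y) (a.add b) := by
  unfold Mem Ball.add at *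
  simp only
  push_cast
  calc |(x + y) * D - ((a.c : ℝ) + b.c)| = |(x * D - a.c) + (y * D - b.c)| := by ring_nf
    _ ≤ |x * D - a.c| + |y * D - b.c| := abs_add_le _ _
    _ ≤ _ := add_le_add ha hb

theorem Mem.neg (ha : Mem D x a) : Mem D (-x) a.neg := by
  unfold Mem Ball.neg at *
  simp only
  push_cast
  have : -x * D - -(a.c : ℝ) = -(x * D - a.c) := by ring
  rw [this, abs_neg]
  exact ha

theorem Mem.sub (ha : Mem D x a) (hb : Mem D y b) : Mem D (x - y) (a.sub b) := by
  unfold Mem Ball.sub at *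
  simp only
  push_cast
  calc |(x - y) * D - ((a.c : ℝ) - b.c)| = |(x * D - a.c) - (y * D - b.c)| := by ring_nf
    _ ≤ |x * D - a.c| + |y * D - b.c| := abs_sub _ _
    _ ≤ _ := add_le_add ha hb

theorem Mem.mul (ha : Mem D x a) (hb : Mem E y b) : Mem (D * E) (x * y) (a.mul b) := by
  unfold Mem Ball.mul at *
  simp only
  push_cast
  have hc1 : |(a.c : ℝ)| = (a.c.natAbs : ℝ) := by
    rw [Nat.cast_natAbs]; push_cast; rfl
  have hc2 : |(b.c : ℝ)| = (b.c.natAbs : ℝ) := by
    rw [Nat.cast_natAbs]; push_cast; rfl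
  have hy : |y * E| ≤ (b.c.natAbs : ℝ) + b.r := by
    have : |y * E| ≤ |(b.c : ℝ)| + |y * E - b.c| := by
      have := abs_add_le (b.c : ℝ) (y * E - b.c)
      simpa using this
    rw [hc2] at this
    linarith
  calc |x * y * (D * E) - (a.c : ℝ) * b.c|
      = |(a.c : ℝ) * (y * E - b.c) + (x * D - a.c) * (y * E)| := by ring_nf
    _ ≤ |(a.c : ℝ) * (y * E - b.c)| + |(x * D - a.c) * (y * E)| := abs_add_le _ _
    _ = |(a.c : ℝ)| * |y * E - b.c| + |x * D - a.c| * |y * E| := by rw [abs_mul, abs_mul]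
    _ ≤ (a.c.natAbs : ℝ) * b.r + a.r * ((b.c.natAbs : ℝ) + b.r) := by
        rw [hc1]
        apply add_le_add
        · exact mul_le_mul_of_nonneg_left hb (Nat.cast_nonneg _)
        · exact mul_le_mul ha hy (abs_nonneg _) (Nat.cast_nonneg _)
    _ = _ := by ring

theorem Mem.smul (k : ℤ) (ha : Mem D x a) : Mem D (k * x) (Ball.smul k a) := by
  unfold Mem Ball.smul at *
  simp only
  push_cast
  have hc1 : |(k : ℝ)| = (k.natAbs : ℝ) := by
    rw [Nat.cast_natAbs]; push_cast; rfl
  calc |(k : ℝ) * x * D - (k : ℝ) * a.c| = |(k : ℝ) * (x * D - a.c)| := by ring_nf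
    _ = |(k : ℝ)| * |x * D - a.c| := abs_mul _ _
    _ ≤ _ := by rw [hc1]; exact mul_le_mul_of_nonneg_left ha (Nat.cast_nonneg _)

theorem mem_ofInt (k : ℤ) (h : x * D = k) : Mem D x (ofInt k) := by
  unfold Mem ofInt
  simp [h]

theorem Mem.round {s : ℕ} (hs : 0 < s) (ha : Mem (D * s) x a) : Mem D x (a.round s) := by
  unfold Mem Ball.round at *
  simp only
  have hs' : (0 : ℝ) < s := Nat.cast_pos.mpr hs
  have h1 : ((a.c / (s : ℤ) : ℤ) : ℝ) * s ≤ a.c := by
    exact_mod_cast Int.ediv_mul_le a.c (by exact_mod_cast hs.ne')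
  have h2 : (a.c : ℝ) < (((a.c / (s : ℤ) : ℤ) : ℝ) + 1) * s := by
    exact_mod_cast Int.lt_ediv_add_one_mul_self a.c (by exact_mod_cast hs)
  have h3 : (a.r : ℝ) < (((a.r / s : ℕ) : ℝ) + 1) * s := by
    have := Nat.lt_div_mul_add (a := a.r) hs
    have h' : a.r < (a.r / s + 1) * s := by
      rw [Nat.add_mul, Nat.one_mul]; exact this
    exact_mod_cast h'
  have h4 := abs_le.mp ha
  have e : x * (D * s) = (x * D) * s := by ring
  rw [e] at h4
  push_cast
  rw [abs_le]
  constructor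
  · have : ((a.c / (s : ℤ) : ℤ) : ℝ) * s - x * D * s < (((a.r / s : ℕ) : ℝ) + 1) * s := by
      linarith [h4.1]
    have h5 : ((a.c / (s : ℤ) : ℤ) : ℝ) - x * D < ((a.r / s : ℕ) : ℝ) + 1 := by
      have h6 : (((a.c / (s : ℤ) : ℤ) : ℝ) - x * D) * s < (((a.r / s : ℕ) : ℝ) + 1) * s := by
        linarith
      exact lt_of_mul_lt_mul_right h6 hs'.le
    linarith
  · have h5 : x * D - ((a.c / (s : ℤ) : ℤ) : ℝ) < ((a.r / s : ℕ) : ℝ) + 2 := by
      have h6 : (x * D - ((a.c / (s : ℤ) : ℤ) : ℝ)) * s < (((a.r / s : ℕ) : ℝ) + 2) * s := by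
        nlinarith [h4.2]
      exact lt_of_mul_lt_mul_right h6 hs'.le
    linarith

theorem Mem.pos (ha : Mem D x a) (hD : 0 < D) (h : a.pos = true) : 0 < x := by
  unfold Ball.pos at h
  have h1 : ((a.r : ℤ) : ℝ) < a.c := by exact_mod_cast (of_decide_eq_true h)
  have h2 := (abs_le.mp ha).1
  push_cast at h1
  have : 0 < x * D := by linarith
  exact (mul_pos_iff_of_pos_right hD).mp this

theorem Mem.isNeg (ha : Mem D x a) (hD : 0 < D) (h : a.isNeg = true) : x < 0 := by
  unfold Ball.isNeg at h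
  have h1 : (a.c : ℝ) < -((a.r : ℤ) : ℝ) := by exact_mod_cast (of_decide_eq_true h)
  have h2 := (abs_le.mp ha).2
  push_cast at h1
  have : x * D < 0 := by linarith
  by_contra hx
  push Not at hx
  have := mul_nonneg hx hD.le
  linarith

end Ball

end Pool.Agent.Helper1.CX
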