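import Pool.Agent.Helper1.CX.Star
import Pool.Agent.Helper66.AF.Fan3

/-! # A checker for complete fans, in ball arithmetic -/

set_option autoImplicit false

namespace Pool.Agent.Helper1.CX

open Pool.Agent.Helper66.AF

/-- some positive multiple of `x` lies in the box -/
def BVec.PMem (x : E3) (b : BVec) : Prop := ∃ s : ℝ, 0 < s ∧ BVec.Mem s x b

/-- an exact integer vector -/
def BVec.ofInts (y : ℤ × ℤ × ℤ) : BVec := ⟨Ball.ofInt y.1, Ball.ofInt y.2.1, Ball.ofInt y.2.2⟩

/-- an integer vector as a point of `ℝ³` -/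
def ptOf (y : ℤ × ℤ × ℤ) : E3 := ![(y.1 : ℝ), (y.2.1 : ℝ), (y.2.2 : ℝ)]

theorem mem_ofInts (y : ℤ × ℤ × ℤ) : BVec.PMem (ptOf y) (BVec.ofInts y) := by
  refine ⟨1, one_pos, ?_, ?_, ?_⟩ <;> apply Ball.mem_ofInt <;> simp [ptOf]

/-- a box given by the lower and upper bounds of the three coordinates -/
structure Box where
  x0 : ℤ
  x1 : ℤ
  y0 : ℤ
  y1 : ℤ
  z0 : ℤ
  z1 : ℤ

/-- some positive multiple of `x` has its coordinates between the bounds -/
def Box.Mem (B : Box) (x : E3) : Prop := ∃ s : ℝ, 0 < s ∧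
  ((B.x0 : ℝ) ≤ s * x 0 ∧ s * x 0 ≤ B.x1) ∧ ((B.y0 : ℝ) ≤ s * x 1 ∧ s * x 1 ≤ B.y1) ∧
    ((B.z0 : ℝ) ≤ s * x 2 ∧ s * x 2 ≤ B.z1)

/-- a box as a vector of balls (with doubled scale) -/
def Box.toBVec (B : Box) : BVec :=
  ⟨⟨B.x0 + B.x1, (B.x1 - B.x0).toNat⟩, ⟨B.y0 + B.y1, (B.y1 - B.y0).toNat⟩,
    ⟨B.z0 + B.z1, (B.z1 - B.z0).toNat⟩⟩

theorem ball_of_bounds {s x : ℝ} {l h : ℤ} (h1 : (l : ℝ) ≤ s * x) (h2 : s * x ≤ h) :
    Ball.Mem (2 * s) x ⟨l + h, (h - l).toNat⟩ := by
  unfold Ball.Mem
  have h3 : l ≤ h := by exact_mod_cast h1.trans h2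
  have h4 : (((h - l).toNat : ℕ) : ℝ) = (h : ℝ) - l := by
    have : (((h - l).toNat : ℕ) : ℤ) = h - l := Int.toNat_of_nonneg (by omega)
    have h5 : ((((h - l).toNat : ℕ) : ℤ) : ℝ) = ((h - l : ℤ) : ℝ) := by rw [this]
    push_cast at h5
    exact h5
  simp only
  rw [h4]
  push_cast
  rw [abs_le]
  constructor <;> linarith

theorem Box.Mem.pmem {B : Box} {x : E3} (h : B.Mem x) : BVec.PMem x B.toBVec := by
  obtain ⟨s, hs, hx, hy, hz⟩ := h
  exact ⟨2 * s, by linarith, ball_of_bounds hx.1 hx.2, ball_of_bounds hy.1 hy.2,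
    ball_of_bounds hz.1 hz.2⟩

/-- lookup in an association list -/
def find : List (ℕ × BVec) → ℕ → Option BVec
  | [], _ => none
  | e :: N, i => bif Nat.beq i e.1 then some e.2 else find N i

theorem find_mem {N : List (ℕ × BVec)} {i : ℕ} {b : BVec} (h : find N i = some b) :
    (i, b) ∈ N := by
  induction N with
  | nil => simp [find] at h
  | cons e N ih =>
    unfold find at h
    by_cases he : Nat.beq i e.1 = true
    · rw [he] at h
      simp only [cond_true, Option.some.injEq] at h
      have : i = e.1 := Nat.eq_of_beq_eq_true he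
      subst this
      subst h
      exact List.mem_cons_self
    · simp only [Bool.not_eq_true] at he
      rw [he] at h
      exact List.mem_cons_of_mem _ (ih h)

/-- the three sign conditions for a vector in the open cone -/
def inOpen (y a b c : BVec) : Bool :=
  (BVec.det y b c).pos && ((BVec.det a y c).pos && (BVec.det a b y).pos)

/-- one of the three determinants is negative -/
def outside (y a b c : BVec) : Bool :=
  (BVec.det y b c).isNeg || ((BVec.det a y c).isNeg || (BVec.det a b y).isNeg)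

/-- the check for one triangle -/
def triOK (N : List (ℕ × BVec)) (y : BVec) (first : Bool) (t : ℕ × ℕ × ℕ) : Bool :=
  match find N t.1, find N t.2.1, find N t.2.2 with
  | some a, some b, some c =>
      (BVec.det a b c).pos && (bif first then inOpen y a b c else outside y a b c)
  | _, _, _ => false

/-- positivity and degree one -/
def checkGeo (L : List (ℕ × ℕ × ℕ)) (N : List (ℕ × BVec)) (y : ℤ × ℤ × ℤ) : Bool :=
  match L with
  | [] => false
  | t :: L' => triOK N (BVec.ofInts y) true t && L'.all (triOK N (BVec.ofInts y) false)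

/-- the directed edges are closed under reversal -/
def checkClosed (L : List (ℕ × ℕ × ℕ)) : Bool :=
  ((L.flatMap triEdges).map Prod.swap).isPerm (L.flatMap triEdges)

/-- the fan checker -/
def checkFan (L : List (ℕ × ℕ × ℕ)) (N : List (ℕ × BVec)) (y : ℤ × ℤ × ℤ) : Bool :=
  checkGeo L N y && checkClosed L

section Sound

variable {a b c y : E3} {A B C Y : BVec}

theorem det_pos_of (ha : BVec.PMem a A) (hb : BVec.PMem b B) (hc : BVec.PMem c C)
    (h : (BVec.det A B C).pos = true) : 0 < det3 a b c := by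
  obtain ⟨s, hs, ha⟩ := ha
  obtain ⟨t, ht, hb⟩ := hb
  obtain ⟨u, hu, hc⟩ := hc
  exact (ha.det hb hc).pos (by positivity) h

theorem det_neg_of (ha : BVec.PMem a A) (hb : BVec.PMem b B) (hc : BVec.PMem c C)
    (h : (BVec.det A B C).isNeg = true) : det3 a b c < 0 := by
  obtain ⟨s, hs, ha⟩ := ha
  obtain ⟨t, ht, hb⟩ := hb
  obtain ⟨u, hu, hc⟩ := hc
  exact (ha.det hb hc).isNeg (by positivity) h

theorem inOpen_sound (ha : BVec.PMem a A) (hb : BVec.PMem b B) (hc : BVec.PMem c C)
    (hy : BVec.PMem y Y) (h : inOpen Y A B C = true) : InOpenCone a b c y := by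
  unfold inOpen at h
  rw [Bool.and_eq_true, Bool.and_eq_true] at h
  exact ⟨det_pos_of hy hb hc h.1, det_pos_of ha hy hc h.2.1, det_pos_of ha hb hy h.2.2⟩

theorem outside_sound (ha : BVec.PMem a A) (hb : BVec.PMem b B) (hc : BVec.PMem c C)
    (hy : BVec.PMem y Y) (h : outside Y A B C = true) : ¬ InCone a b c y := by
  unfold outside at h
  rw [Bool.or_eq_true, Bool.or_eq_true] at h
  rintro ⟨h1, h2, h3⟩
  rcases h with h | h | h
  · exact absurd (det_neg_of hy hb hc h) (not_lt.mpr h1)
  · exact absurd (det_neg_of ha hy hc h) (not_lt.mpr h2)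
  · exact absurd (det_neg_of ha hb hy h) (not_lt.mpr h3)

variable {p : ℕ → E3} {N : List (ℕ × BVec)} {L : List (ℕ × ℕ × ℕ)} {z : ℤ × ℤ × ℤ}

theorem triOK_sound (hN : ∀ e ∈ N, BVec.PMem (p e.1) e.2) (hy : BVec.PMem y Y) {first : Bool}
    {t : ℕ × ℕ × ℕ} (h : triOK N Y first t = true) :
    0 < det3 (p t.1) (p t.2.1) (p t.2.2) ∧
      (first = true → InOpenCone (p t.1) (p t.2.1) (p t.2.2) y) ∧
      (first = false → ¬ InCone (p t.1) (p t.2.1) (p t.2.2) y) := by
  unfold triOK at h
  split at h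
  · rename_i A B C hA hB hC
    have ha := hN _ (find_mem hA)
    have hb := hN _ (find_mem hB)
    have hc := hN _ (find_mem hC)
    rw [Bool.and_eq_true] at h
    refine ⟨det_pos_of ha hb hc h.1, ?_, ?_⟩
    · rintro rfl
      exact inOpen_sound ha hb hc hy h.2
    · rintro rfl
      exact outside_sound ha hb hc hy h.2
  · exact absurd h (by simp)

theorem checkGeo_sound (hN : ∀ e ∈ N, BVec.PMem (p e.1) e.2) (h : checkGeo L N z = true) :
    (∀ t ∈ L, 0 < det3 (p t.1) (p t.2.1) (p t.2.2)) ∧
      ∃ (y : E3) (t : ℕ × ℕ × ℕ) (L' : List (ℕ × ℕ × ℕ)), L = t :: L' ∧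
        InOpenCone (p t.1) (p t.2.1) (p t.2.2) y ∧
          ∀ s ∈ L', ¬ InCone (p s.1) (p s.2.1) (p s.2.2) y := by
  cases L with
  | nil => simp [checkGeo] at h
  | cons t L' =>
    unfold checkGeo at h
    rw [Bool.and_eq_true, List.all_eq_true] at h
    have hy := mem_ofInts z
    refine ⟨?_, ptOf z, t, L', rfl, (triOK_sound hN hy h.1).2.1 rfl,
      fun s hs => (triOK_sound hN hy (h.2 s hs)).2.2 rfl⟩
    intro s hs
    rcases List.mem_cons.mp hs with rfl | hs
    · exact (triOK_sound hN hy h.1).1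
    · exact (triOK_sound hN hy (h.2 s hs)).1

theorem checkClosed_sound (h : checkClosed L = true) :
    ((L.flatMap triEdges).map Prod.swap).Perm (L.flatMap triEdges) :=
  List.isPerm_iff.mp h

theorem checkFan_sound (h : checkFan L N z = true) (hN : ∀ e ∈ N, BVec.PMem (p e.1) e.2) :
    IsFan L p := by
  unfold checkFan at h
  rw [Bool.and_eq_true] at h
  obtain ⟨h1, h2⟩ := checkGeo_sound hN h.1
  exact ⟨h1, checkClosed_sound h.2, h2⟩

/-- version with lower and upper bounds -/
theorem checkFan_sound_box {N' : List (ℕ × Box)}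
    (h : checkFan L (N'.map (fun e => (e.1, e.2.toBVec))) z = true)
    (hN : ∀ e ∈ N', e.2.Mem (p e.1)) : IsFan L p := by
  apply checkFan_sound h
  intro e he
  obtain ⟨e', he', rfl⟩ := List.mem_map.mp he
  exact (hN e' he').pmem

end Sound

section Transport

variable {V W : Type*}

/-- a map of triangles -/
def mapTri (f : W → V) (t : W × W × W) : V × V × V := (f t.1, f t.2.1, f t.2.2)

theorem flatMap_mapTri (f : W → V) (L : List (W × W × W)) :
    (L.map (mapTri f)).flatMap triEdges = (L.flatMap triEdges).map (Prod.map f f) := by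
  induction L with
  | nil => rfl
  | cons t L ih =>
    simp only [List.map_cons, List.flatMap_cons, List.map_append, ih]
    rfl

theorem isFan_map (f : W → V) {L : List (W × W × W)} {p : V → E3} (h : IsFan L (p ∘ f)) :
    IsFan (L.map (mapTri f)) p := by
  refine ⟨?_, ?_, ?_⟩
  · intro t ht
    obtain ⟨s, hs, rfl⟩ := List.mem_map.mp ht
    exact h.pos s hs
  · rw [flatMap_mapTri, List.map_map]
    have h1 := h.closed.map (Prod.map f f)
    rw [List.map_map] at h1
    have e : (Prod.swap ∘ Prod.map f f : W × W → V × V) = Prod.map f f ∘ Prod.swap := by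
      funext x; rfl
    rw [e]
    exact h1
  · obtain ⟨y, t, L', rfl, h1, h2⟩ := h.degree
    refine ⟨y, mapTri f t, L'.map (mapTri f), rfl, h1, ?_⟩
    intro s hs
    obtain ⟨s', hs', rfl⟩ := List.mem_map.mp hs
    exact h2 s' hs'

/-- the reflection `(x, y, z) ↦ (x, y, -z)` -/
def refl3 (v : E3) : E3 := ![v 0, v 1, - v 2]

theorem det3_refl (a b c : E3) : det3 (refl3 a) (refl3 b) (refl3 c) = - det3 a b c := by
  simp [det3, refl3]; ring

theorem det3_refl_rev (a b c : E3) : det3 (refl3 a) (refl3 c) (refl3 b) = det3 a b c := by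
  simp [det3, refl3]; ring

/-- the reversed triangle -/
def revTri (t : V × V × V) : V × V × V := (t.1, t.2.2, t.2.1)

theorem revTri_edges (t : V × V × V) : (triEdges (revTri t)).Perm ((triEdges t).map Prod.swap) := by
  simp only [triEdges, revTri, List.map_cons, List.map_nil, Prod.swap_prod_mk]
  -- edges: (a,c),(c,b),(b,a) and (b,a),(c,b),(a,c)
  exact (List.Perm.swap _ _ _).trans
    (((List.Perm.swap _ _ _).cons _).trans ((List.Perm.swap _ _ _)))

theorem flatMap_rev (L : List (V × V × V)) :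
    ((L.map revTri).flatMap triEdges).Perm ((L.flatMap triEdges).map Prod.swap) := by
  induction L with
  | nil => exact List.Perm.refl _
  | cons t L ih =>
    simp only [List.map_cons, List.flatMap_cons, List.map_append]
    exact (revTri_edges t).append ih

/-- the mirror image of a fan -/
theorem isFan_mirror {L : List (V × V × V)} {p : V → E3} (h : IsFan L p) :
    IsFan (L.map revTri) (fun v => refl3 (p v)) := by
  refine ⟨?_, ?_, ?_⟩
  · intro t ht
    obtain ⟨s, hs, rfl⟩ := List.mem_map.mp ht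
    simp only [revTri]
    rw [det3_refl_rev]
    exact h.pos s hs
  · have h1 := flatMap_rev L
    have h2 := (h1.map Prod.swap)
    have h3 : (((L.flatMap triEdges).map Prod.swap).map Prod.swap).Perm
        ((L.flatMap triEdges).map Prod.swap) := h.closed.map Prod.swap
    exact h2.trans (h3.trans h1.symm)
  · obtain ⟨y, t, L', rfl, h1, h2⟩ := h.degree
    refine ⟨refl3 y, revTri t, L'.map revTri, rfl, ?_, ?_⟩
    · simp only [revTri, InOpenCone]
      rw [det3_refl_rev, det3_refl_rev, det3_refl_rev]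
      exact ⟨h1.1, h1.2.2, h1.2.1⟩
    · intro s hs
      obtain ⟨s', hs', rfl⟩ := List.mem_map.mp hs
      have h3 := h2 s' hs'
      simp only [revTri, InCone]
      rw [det3_refl_rev, det3_refl_rev, det3_refl_rev]
      exact fun h4 => h3 ⟨h4.1, h4.2.2, h4.2.1⟩

end Transport

end Pool.Agent.Helper1.CX
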