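import Pool.Agent.Helper1.CX.Fan

/-! # A complete fan stays a complete fan if the list of triangles is permuted -/

set_option autoImplicit false

namespace Pool.Agent.Helper1.CX

open Pool.Agent.Helper66.AF Filter Topology

variable {V : Type*}

/-- a point of the open cone of a triangle of the fan which is on no ray of the fan -/
theorem exists_off (L : List (V × V × V)) (p : V → E3) {a b c : E3} (hD : 0 < det3 a b c) :
    ∃ y, InOpenCone a b c y ∧ y ∈ offRays L p := by
  set y0 : E3 := (1 : ℝ) • a + (1 : ℝ) • b + (1 : ℝ) • c with hy0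
  have h0 : InOpenCone a b c y0 := (inOpenCone_comb hD).mpr ⟨one_pos, one_pos, one_pos⟩
  obtain ⟨z, hz⟩ := exists_generic (L.flatMap (fun t => [p t.1, p t.2.1, p t.2.2])) y0 y0
  set w : ℝ → E3 := fun s => (1 - s) • y0 + s • z with hw
  have hc : Continuous w := by fun_prop
  have hw0 : w 0 = y0 := by simp [hw]
  have e1 : ∀ᶠ s in 𝓝 (0 : ℝ), 0 < det3 (w s) b c :=
    ((det_cont1 b c).comp hc).continuousAt.tendsto.eventually_const_lt (by
      simp only [Function.comp, hw0]; exact h0.1)
  have e2 : ∀ᶠ s in 𝓝 (0 : ℝ), 0 < det3 a (w s) c :=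
    ((det_cont2 a c).comp hc).continuousAt.tendsto.eventually_const_lt (by
      simp only [Function.comp, hw0]; exact h0.2.1)
  have e3 : ∀ᶠ s in 𝓝 (0 : ℝ), 0 < det3 a b (w s) :=
    ((det_cont3 a b).comp hc).continuousAt.tendsto.eventually_const_lt (by
      simp only [Function.comp, hw0]; exact h0.2.2)
  have e4 : ∀ᶠ s in 𝓝[>] (0 : ℝ), 0 < det3 (w s) b c ∧ 0 < det3 a (w s) c ∧ 0 < det3 a b (w s) :=
    (e1.and (e2.and e3)).filter_mono nhdsWithin_le_nhds
  obtain ⟨s, hs, hs0⟩ := (e4.and self_mem_nhdsWithin).exists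
  have hs0 : 0 < s := hs0
  refine ⟨w s, hs, ?_⟩
  by_contra hoff
  obtain ⟨t, ht, u, hu, r, hr, hru⟩ := offRays_compl (w s) hoff
  have hmem : p u ∈ L.flatMap (fun t => [p t.1, p t.2.1, p t.2.2]) := by
    rw [List.mem_flatMap]
    refine ⟨t, ht, ?_⟩
    rcases hu with hu | hu | hu <;> simp [hu]
  apply (hz _ hmem).1
  rw [Submodule.mem_span_pair]
  refine ⟨-((1 - s) / s), r / s, ?_⟩
  have h5 : s • z = r • p u - (1 - s) • y0 := by
    rw [← hru, hw]; simp
  have h6 : z = s⁻¹ • (s • z) := by rw [smul_smul, inv_mul_cancel₀ hs0.ne', one_smul]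
  rw [h6, h5, smul_sub, smul_smul, smul_smul, neg_smul, sub_eq_add_neg, add_comm]
  congr 2
  · field_simp
  · field_simp

/-- permutation of the triangles -/
theorem isFan_perm {L L' : List (V × V × V)} {p : V → E3} (h : IsFan L p) (hp : L.Perm L') :
    IsFan L' p := by
  refine ⟨fun t ht => h.pos t (hp.mem_iff.mpr ht), ?_, ?_⟩
  · have h1 : (L.flatMap triEdges).Perm (L'.flatMap triEdges) := hp.flatMap_right _
    exact (h1.map Prod.swap).symm.trans (h.closed.trans h1)
  · cases L' with
    | nil =>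
      obtain ⟨y, t, L'', hL, -⟩ := h.degree
      rw [hL] at hp
      exact absurd hp.length_eq (by simp)
    | cons t L'' =>
      have ht : t ∈ L := hp.mem_iff.mpr List.mem_cons_self
      obtain ⟨y, hy, hoff⟩ := exists_off L p (h.pos t ht)
      have hm := mult_eq h hoff
      have hm' : mult (t :: L'') p y = 2 := by
        rw [← hm]
        unfold mult
        exact ((hp.map _).sum_eq).symm
      refine ⟨y, t, L'', rfl, hy, ?_⟩
      intro s hs hin
      unfold mult at hm'
      rw [List.map_cons, List.sum_cons, wt_open hy] at hm'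
      have h1 : 0 < wt (p s.1) (p s.2.1) (p s.2.2) y := wt_pos_iff.mpr hin
      have h2 : wt (p s.1) (p s.2.1) (p s.2.2) y ≤
          (L''.map (fun t => wt (p t.1) (p t.2.1) (p t.2.2) y)).sum := by
        apply List.single_le_sum
        · intro x hx
          obtain ⟨u, _, rfl⟩ := List.mem_map.mp hx
          exact wt_nonneg _ _ _ _
        · exact List.mem_map.mpr ⟨s, hs, rfl⟩
      linarith

end Pool.Agent.Helper1.CX
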