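import Pool.Agent.Helper1.CX.Ball
import Pool.Agent.Helper66.AF.Defs

/-! # Determinants in ball arithmetic, affine maps in ball arithmetic -/

set_option autoImplicit false

namespace Pool.Agent.Helper1.CX

open Pool.Agent.Helper66.AF

theorem det3_eq (a b c : Fin 3 → ℝ) : det3 a b c = Matrix.det (Matrix.of ![a, b, c]) := by
  rw [Matrix.det_fin_three]
  simp [det3]
  ring

/-- a vector of balls -/
structure BVec where
  x : Ball
  y : Ball
  z : Ball
deriving DecidableEq, Repr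

namespace BVec

/-- the real vector `v` lies in the box `b` at scale `D` -/
def Mem (D : ℝ) (v : Fin 3 → ℝ) (b : BVec) : Prop :=
  Ball.Mem D (v 0) b.x ∧ Ball.Mem D (v 1) b.y ∧ Ball.Mem D (v 2) b.z

/-- difference -/
def sub (a b : BVec) : BVec := ⟨a.x.sub b.x, a.y.sub b.y, a.z.sub b.z⟩

/-- sum -/
def add (a b : BVec) : BVec := ⟨a.x.add b.x, a.y.add b.y, a.z.add b.z⟩

/-- rounding from scale `D * s` to scale `D` -/
def round (s : ℕ) (a : BVec) : BVec := ⟨a.x.round s, a.y.round s, a.z.round s⟩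

/-- determinant (scale `D ^ 3`) -/
def det (a b c : BVec) : Ball :=
  ((a.x.mul ((b.y.mul c.z).sub (b.z.mul c.y))).sub
    (a.y.mul ((b.x.mul c.z).sub (b.z.mul c.x)))).add
      (a.z.mul ((b.x.mul c.y).sub (b.y.mul c.x)))

variable {D D' D'' : ℝ} {u v w : Fin 3 → ℝ} {a b c : BVec}

theorem Mem.sub (ha : Mem D u a) (hb : Mem D v b) : Mem D (u - v) (a.sub b) :=
  ⟨ha.1.sub hb.1, ha.2.1.sub hb.2.1, ha.2.2.sub hb.2.2⟩

theorem Mem.add (ha : Mem D u a) (hb : Mem D v b) : Mem D (u + v) (a.add b) :=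
  ⟨ha.1.add hb.1, ha.2.1.add hb.2.1, ha.2.2.add hb.2.2⟩

theorem Mem.round {s : ℕ} (hs : 0 < s) (ha : Mem (D * s) u a) : Mem D u (a.round s) :=
  ⟨ha.1.round hs, ha.2.1.round hs, ha.2.2.round hs⟩

theorem Mem.det (ha : Mem D u a) (hb : Mem D' v b) (hc : Mem D'' w c) :
    Ball.Mem (D * (D' * D'')) (det3 u v w) (BVec.det a b c) := by
  unfold det3 BVec.det
  exact ((ha.1.mul ((hb.2.1.mul hc.2.2).sub (hb.2.2.mul hc.2.1))).sub
    (ha.2.1.mul ((hb.1.mul hc.2.2).sub (hb.2.2.mul hc.1)))).add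
      (ha.2.2.mul ((hb.1.mul hc.2.1).sub (hb.2.1.mul hc.1)))

end BVec

/-- an affine map of `ℝ³`: matrix and translation vector -/
structure RAff where
  A : Fin 3 → Fin 3 → ℝ
  b : Fin 3 → ℝ

/-- the value of an affine map at a point -/
def RAff.app (f : RAff) (v : Fin 3 → ℝ) : Fin 3 → ℝ :=
  fun i => f.A i 0 * v 0 + f.A i 1 * v 1 + f.A i 2 * v 2 + f.b i

/-- composition `f ∘ g` -/
def RAff.comp (f g : RAff) : RAff :=
  ⟨fun i j => f.A i 0 * g.A 0 j + f.A i 1 * g.A 1 j + f.A i 2 * g.A 2 j,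
    fun i => f.A i 0 * g.b 0 + f.A i 1 * g.b 1 + f.A i 2 * g.b 2 + f.b i⟩

/-- the identity -/
def RAff.one : RAff := ⟨fun i j => if i = j then 1 else 0, fun _ => 0⟩

theorem RAff.comp_app (f g : RAff) (v : Fin 3 → ℝ) : (f.comp g).app v = f.app (g.app v) := by
  funext i
  simp only [RAff.comp, RAff.app]
  ring

/-- a box of affine maps: the rows `(A i 0, A i 1, A i 2; b i)` -/
structure BRow where
  a0 : Ball
  a1 : Ball
  a2 : Ball
  t : Ball
deriving DecidableEq, Repr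

/-- a box of affine maps -/
structure BAff where
  r0 : BRow
  r1 : BRow
  r2 : BRow
deriving DecidableEq, Repr

/-- row `i` of the affine map `f` lies in the box -/
def BRow.Mem (D : ℝ) (f : RAff) (i : Fin 3) (r : BRow) : Prop :=
  Ball.Mem D (f.A i 0) r.a0 ∧ Ball.Mem D (f.A i 1) r.a1 ∧ Ball.Mem D (f.A i 2) r.a2 ∧
    Ball.Mem D (f.b i) r.t

/-- the affine map `f` lies in the box -/
def BAff.Mem (D : ℝ) (f : RAff) (F : BAff) : Prop :=
  F.r0.Mem D f 0 ∧ F.r1.Mem D f 1 ∧ F.r2.Mem D f 2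

/-- value of a row at a vector of balls: scales `D`, `E`, the translation is multiplied by `E` -/
def BRow.app (E : ℕ) (r : BRow) (v : BVec) : Ball :=
  (((r.a0.mul v.x).add (r.a1.mul v.y)).add (r.a2.mul v.z)).add (Ball.smul E r.t)

/-- value of an affine box at a vector of balls of scale `E` -/
def BAff.app (E : ℕ) (F : BAff) (v : BVec) : BVec :=
  ⟨F.r0.app E v, F.r1.app E v, F.r2.app E v⟩

/-- composition, row times box -/
def BRow.comp (E : ℕ) (r : BRow) (G : BAff) : BRow :=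
  ⟨((r.a0.mul G.r0.a0).add (r.a1.mul G.r1.a0)).add (r.a2.mul G.r2.a0),
    ((r.a0.mul G.r0.a1).add (r.a1.mul G.r1.a1)).add (r.a2.mul G.r2.a1),
    ((r.a0.mul G.r0.a2).add (r.a1.mul G.r1.a2)).add (r.a2.mul G.r2.a2),
    (((r.a0.mul G.r0.t).add (r.a1.mul G.r1.t)).add (r.a2.mul G.r2.t)).add (Ball.smul E r.t)⟩

/-- composition of boxes of affine maps of scales `D`, `E`; the result has scale `D * E` -/
def BAff.comp (E : ℕ) (F G : BAff) : BAff := ⟨F.r0.comp E G, F.r1.comp E G, F.r2.comp E G⟩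

/-- rounding of a row -/
def BRow.round (s : ℕ) (r : BRow) : BRow := ⟨r.a0.round s, r.a1.round s, r.a2.round s, r.t.round s⟩

/-- rounding from scale `D * s` to scale `D` -/
def BAff.round (s : ℕ) (F : BAff) : BAff := ⟨F.r0.round s, F.r1.round s, F.r2.round s⟩

section

variable {D : ℝ} {E : ℕ} {f g : RAff} {F G : BAff} {v : Fin 3 → ℝ} {w : BVec}

theorem mem_smul_scale {x : ℝ} {a : Ball} (h : Ball.Mem D x a) :
    Ball.Mem (D * E) x (Ball.smul E a) := by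
  have h1 := h.smul (E : ℤ)
  unfold Ball.Mem at h1 ⊢
  have e : x * (D * E) = ((E : ℤ) : ℝ) * x * D := by push_cast; ring
  rw [e]
  exact h1

theorem BRow.Mem.app {i : Fin 3} {r : BRow} (hr : r.Mem D f i) (hv : BVec.Mem E v w) :
    Ball.Mem (D * E) (f.app v i) (r.app E w) :=
  (((hr.1.mul hv.1).add (hr.2.1.mul hv.2.1)).add (hr.2.2.1.mul hv.2.2)).add
    (mem_smul_scale hr.2.2.2)

theorem BAff.Mem.app (hF : BAff.Mem D f F) (hv : BVec.Mem E v w) :
    BVec.Mem (D * E) (f.app v) (F.app E w) :=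
  ⟨hF.1.app hv, hF.2.1.app hv, hF.2.2.app hv⟩

theorem BRow.Mem.comp {i : Fin 3} {r : BRow} (hr : r.Mem D f i) (hG : BAff.Mem E g G) :
    (r.comp E G).Mem (D * E) (f.comp g) i :=
  ⟨((hr.1.mul hG.1.1).add (hr.2.1.mul hG.2.1.1)).add (hr.2.2.1.mul hG.2.2.1),
    ((hr.1.mul hG.1.2.1).add (hr.2.1.mul hG.2.1.2.1)).add (hr.2.2.1.mul hG.2.2.2.1),
    ((hr.1.mul hG.1.2.2.1).add (hr.2.1.mul hG.2.1.2.2.1)).add (hr.2.2.1.mul hG.2.2.2.2.1),
    (((hr.1.mul hG.1.2.2.2).add (hr.2.1.mul hG.2.1.2.2.2)).add (hr.2.2.1.mul hG.2.2.2.2.2)).add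
      (mem_smul_scale hr.2.2.2)⟩

theorem BAff.Mem.comp (hF : BAff.Mem D f F) (hG : BAff.Mem E g G) :
    BAff.Mem (D * E) (f.comp g) (F.comp E G) :=
  ⟨hF.1.comp hG, hF.2.1.comp hG, hF.2.2.comp hG⟩

theorem BRow.Mem.round {i : Fin 3} {r : BRow} {s : ℕ} (hs : 0 < s) (hr : r.Mem (D * s) f i) :
    (r.round s).Mem D f i :=
  ⟨hr.1.round hs, hr.2.1.round hs, hr.2.2.1.round hs, hr.2.2.2.round hs⟩

theorem BAff.Mem.round {s : ℕ} (hs : 0 < s) (hF : BAff.Mem (D * s) f F) :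
    BAff.Mem D f (F.round s) :=
  ⟨hF.1.round hs, hF.2.1.round hs, hF.2.2.round hs⟩

end

end Pool.Agent.Helper1.CX
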